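import Pool.Agent.W425.PZ.Fin

set_option autoImplicit false

/-! Project PZ: Igusa zeta functions of integral polynomials with generic coefficients. -/

namespace Pool.Agent.W425.PZ

open MvPolynomial MeasureTheory Filter Topology Pool.Agent.W425.MM
open Pool.Agent.W427.SMC (igusaZeta)
open Pool.Agent.W425.ND (spa)

/-- **Poles of the Igusa zeta function, generic coefficients.** -/
theorem gen_igusaZ {n r : ℕ} (hr : 0 < r) (v : Fin r → Fin n → ℕ)
    (hv : Function.Injective v) (hv0 : ∀ j, v j ≠ 0) (h : MvPolynomial (Fin n) ℤ)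
    (hh : ∀ w ∈ h.support, Pool.Agent.W425.SV.NP v w) (hB : NoB1s v False) :
    ∃ g : MvPolynomial (Fin r) ℚ, g ≠ 0 ∧ ∀ c : Fin r → ℤ, eval (fun j => (c j : ℚ)) g ≠ 0 →
      ∃ p₀ : ℕ, ∀ (p : ℕ) [Fact p.Prime], p₀ ≤ p → ∀ Z : ℂ → ℂ, MeromorphicOn Z Set.univ →
        (∀ s : ℂ, 0 < s.re → Z s = igusaZeta p (spa v c + h) s) →
        ∀ s₀ : ℂ, meromorphicOrderAt Z s₀ < 0 → ∀ b : Polynomial ℂ,
          Pool.Agent.H628R4.TP.IsBFunction (MvPolynomial.map (Int.castRingHom ℂ) (spa v c + h)) b →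
          b.eval (s₀.re : ℂ) = 0 := by
  obtain ⟨g1, hg1, h1⟩ := Pool.Agent.W425.GN.gen_padicF (r := r) hr v hv hv0
    (MvPolynomial.map (Int.castRingHom ℚ) h)
    (fun w hw => hh w (MvPolynomial.support_map_subset _ _ hw)) hB
  refine ⟨g1, hg1, fun c hc => ?_⟩
  obtain ⟨S, hS⟩ := h1 (fun j => (c j : ℚ)) hc
  have hmap : MvPolynomial.map (Int.castRingHom ℚ) (spa v c + h) =
      spa v (fun j => (c j : ℚ)) + MvPolynomial.map (Int.castRingHom ℚ) h := by
    rw [map_add]
    congr 1
    unfold spa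
    simp
  have hmapC : MvPolynomial.map (algebraMap ℚ ℂ)
      (spa v (fun j => (c j : ℚ)) + MvPolynomial.map (Int.castRingHom ℚ) h) =
      MvPolynomial.map (Int.castRingHom ℂ) (spa v c + h) := by
    rw [← hmap, MvPolynomial.map_map]
    congr 1
  refine ⟨S.sup id + 1, fun p hpf hp Z hZ hZi s₀ hs₀ b hb => ?_⟩
  have hpS : p ∉ S := fun hmem => by
    have := Finset.le_sup (f := id) hmem
    simp only [id] at this
    omega
  let _ : MeasurableSpace (Fin n → PadicInt p) := borel _
  have _ : BorelSpace (Fin n → PadicInt p) := ⟨rfl⟩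
  set V : ℂ := (((Measure.addHaar : Measure (Fin n → PadicInt p)) Set.univ).toReal : ℂ) with hV
  have hV0 : V ≠ 0 := by
    have : (0 : ℝ) < ((Measure.addHaar : Measure (Fin n → PadicInt p)) Set.univ).toReal :=
      ENNReal.toReal_pos ((isOpen_univ.measure_pos _ Set.univ_nonempty).ne') (measure_ne_top _ _)
    rw [hV]
    exact_mod_cast this.ne'
  exact hS p hpS (fun s => V * Z s) (fun s hs => (MeromorphicAt.const V s).mul (hZ s hs))
    (fun s hs => by
      rw [hZi s hs, ← integral_haar p (spa v c + h) s, hmap]) s₀ (by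
      have h4 : meromorphicOrderAt (fun s => V * Z s) s₀ = meromorphicOrderAt Z s₀ := by
        have h5 := meromorphicOrderAt_mul_of_ne_zero (f := Z) (g := fun _ : ℂ => V)
          (analyticAt_const (x := s₀)) hV0
        exact h5
      rw [h4]
      exact hs₀) b (by rw [hmapC]; exact hb)

end Pool.Agent.W425.PZ
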