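import Pool.Agent.W206.CU.Rat

set_option autoImplicit false
set_option linter.unusedSectionVars false

/-! Project PZ: the poles of the Poincare series are poles of the zeta function. -/

namespace Pool.Agent.W425.PZ

open MeasureTheory Filter Topology
open Pool.Agent.W206.CU
open Pool.Agent.W427.SMC (igusaZeta)

/-- Evaluation of an identity of power series. -/
lemma eval_mul (D A : Polynomial ℂ) (z : ℕ → ℂ) (T : ℂ) (hz : Summable fun m => ‖z m * T ^ m‖)
    (h : (D : PowerSeries ℂ) * PowerSeries.mk z = (A : PowerSeries ℂ)) :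
    D.eval T * ∑' m, z m * T ^ m = A.eval T := by
  have hev : ∀ E : Polynomial ℂ, E.eval T = ∑' i, E.coeff i * T ^ i := by
    intro E
    rw [Polynomial.eval_eq_sum_range, tsum_eq_sum]
    intro i hi
    rw [Polynomial.coeff_eq_zero_of_natDegree_lt, zero_mul]
    rw [Finset.mem_range] at hi
    omega
  have hs : Summable fun i => ‖D.coeff i * T ^ i‖ := by
    refine summable_of_ne_finset_zero (s := Finset.range (D.natDegree + 1)) fun i hi => ?_
    rw [Polynomial.coeff_eq_zero_of_natDegree_lt, zero_mul, norm_zero]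
    rw [Finset.mem_range] at hi
    omega
  rw [hev D, hev A, tsum_mul_tsum_eq_tsum_sum_antidiagonal_of_summable_norm hs hz]
  refine tsum_congr fun n => ?_
  have h1 := congrArg (PowerSeries.coeff n) h
  rw [PowerSeries.coeff_mul, Polynomial.coeff_coe] at h1
  rw [← h1, Finset.sum_mul]
  refine Finset.sum_congr rfl fun kl hkl => ?_
  rw [Finset.HasAntidiagonal.mem_antidiagonal] at hkl
  rw [Polynomial.coeff_coe, PowerSeries.coeff_mk, ← hkl, pow_add]
  ring

variable (p : ℕ) [hp : Fact p.Prime]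

lemma poincare_eq_mk {V : Type} (F : MvPolynomial V ℤ) :
    poincare p F = PowerSeries.mk fun m => ((dens p F m : ℚ) : ℂ) := by
  unfold poincare dens numIn
  congr 1
  funext m
  push_cast
  rfl

lemma gen_eval {V : Type} [Fintype V] (F : MvPolynomial V ℤ) {D A : Polynomial ℂ}
    (h : (D : PowerSeries ℂ) * poincare p F = (A : PowerSeries ℂ)) {T : ℂ} (hT : ‖T‖ < 1) :
    D.eval T * gen p F T = A.eval T := by
  rw [poincare_eq_mk] at h
  exact eval_mul D A _ T (summable_dens p F hT).norm h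

lemma gen_diff {V : Type} [Fintype V] (F : MvPolynomial V ℤ) {T : ℂ} (hT : ‖T‖ < 1) :
    (1 - T) * gen p F T =
      1 - T * ∑' M : ℕ, (((dens p F M - dens p F (M + 1) : ℚ)) : ℂ) * T ^ M := by
  have h2 := gen_succ p F hT
  have h3 : ∑' M : ℕ, (((dens p F M - dens p F (M + 1) : ℚ)) : ℂ) * T ^ M =
      gen p F T - ∑' M : ℕ, ((dens p F (M + 1) : ℚ) : ℂ) * T ^ M := by
    rw [gen, ← (summable_dens p F hT).tsum_sub (summable_dens_succ p F hT)]
    refine tsum_congr fun M => ?_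
    push_cast
    ring
  rw [h3]
  linear_combination h2

/-- `1` is not a pole. -/
lemma pole_ne_one {V : Type} [Fintype V] (F : MvPolynomial V ℤ)
    (hnull : Tendsto (fun M => ((dens p F M : ℚ) : ℝ)) atTop (𝓝 0)) {T₀ : ℂ} {r : ℕ} (hr : 0 < r)
    (h : IsPoleOfOrder (poincare p F) T₀ r) : T₀ ≠ 1 := by
  rintro rfl
  obtain ⟨A, B, hA, hB, hP⟩ := h
  -- Abel's theorem
  have h1 : Tendsto (fun n => ∑ i ∈ Finset.range n,
      (((dens p F i - dens p F (i + 1) : ℚ)) : ℂ)) atTop (𝓝 1) := by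
    have h2 : ∀ n, ∑ i ∈ Finset.range n, (((dens p F i - dens p F (i + 1) : ℚ)) : ℂ) =
        1 - (((dens p F n : ℚ) : ℝ) : ℂ) := by
      intro n
      rw [← Rat.cast_sum, Finset.sum_range_sub', dens_zero]
      push_cast
      rfl
    simp only [h2]
    have h3 : Tendsto (fun n => (((dens p F n : ℚ) : ℝ) : ℂ)) atTop (𝓝 ((0 : ℝ) : ℂ)) :=
      (Complex.continuous_ofReal.tendsto 0).comp hnull
    have h4 := h3.const_sub 1
    simpa using h4
  have h5 := Complex.tendsto_tsum_powerSeries_nhdsWithin_lt h1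
  set l := Filter.map Complex.ofReal (𝓝[<] (1 : ℝ)) with hl
  have hne : l.NeBot := by
    rw [hl]
    infer_instance
  have hl1 : Tendsto (fun z : ℂ => z) l (𝓝 1) := by
    rw [hl, tendsto_map'_iff]
    have h6 : Tendsto Complex.ofReal (𝓝 (1 : ℝ)) (𝓝 ((1 : ℝ) : ℂ)) :=
      Complex.continuous_ofReal.tendsto 1
    rw [Complex.ofReal_one] at h6
    exact h6.mono_left nhdsWithin_le_nhds
  have hl2 : ∀ᶠ z : ℂ in l, ‖z‖ < 1 := by
    rw [hl, eventually_map]
    have h7 : ∀ᶠ x : ℝ in 𝓝[<] (1 : ℝ), 0 < x :=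
      (eventually_gt_nhds zero_lt_one).filter_mono nhdsWithin_le_nhds
    filter_upwards [h7, self_mem_nhdsWithin] with x hx hx1
    rw [Complex.norm_real, Real.norm_of_nonneg hx.le]
    exact hx1
  -- `(1 - T) gen → 0`
  have h8 : Tendsto (fun T => (1 - T) * gen p F T) l (𝓝 0) := by
    have h9 : Tendsto (fun T => 1 - T *
        ∑' M : ℕ, (((dens p F M - dens p F (M + 1) : ℚ)) : ℂ) * T ^ M) l (𝓝 (1 - 1 * 1)) :=
      (hl1.mul h5).const_sub 1
    rw [one_mul, sub_self] at h9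
    refine h9.congr' ?_
    filter_upwards [hl2] with T hT
    rw [gen_diff p F hT]
  obtain ⟨r', rfl⟩ : ∃ r', r = r' + 1 := ⟨r - 1, by omega⟩
  have h10 : Tendsto (fun T : ℂ => -(((T - 1) ^ r' * B.eval T) * ((1 - T) * gen p F T))) l
      (𝓝 (-((((1 : ℂ) - 1) ^ r' * B.eval 1) * 0))) := by
    refine (Tendsto.mul (Tendsto.mul ((hl1.sub_const 1).pow r') ?_) h8).neg
    exact ((Polynomial.continuous B).tendsto 1).comp hl1
  have h11 : Tendsto (fun T : ℂ => A.eval T) l (𝓝 (A.eval 1)) :=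
    ((Polynomial.continuous A).tendsto 1).comp hl1
  have h12 : Tendsto (fun T : ℂ => A.eval T) l (𝓝 (-((((1 : ℂ) - 1) ^ r' * B.eval 1) * 0))) := by
    refine h10.congr' ?_
    filter_upwards [hl2] with T hT
    rw [← gen_eval p F hP hT]
    simp only [Polynomial.eval_mul, Polynomial.eval_pow, Polynomial.eval_sub, Polynomial.eval_X,
      Polynomial.eval_C, pow_succ]
    ring
  have h13 := tendsto_nhds_unique h11 h12
  rw [mul_zero, neg_zero] at h13
  exact hA h13

lemma hasDerivAt_T (s : ℂ) : HasDerivAt (fun s : ℂ => (p : ℂ) ^ (-s))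
    ((p : ℂ) ^ (-s) * Complex.log p * (-1)) s :=
  HasDerivAt.const_cpow (hasDerivAt_neg s) (Or.inl (by exact_mod_cast hp.out.ne_zero))

lemma logp_pos : 0 < Real.log p := Real.log_pos (by exact_mod_cast hp.out.one_lt)

lemma deriv_T_ne (s : ℂ) : (p : ℂ) ^ (-s) * Complex.log p * (-1) ≠ 0 := by
  refine mul_ne_zero (mul_ne_zero (T_ne_zero p s) ?_) (by norm_num)
  rw [← Complex.natCast_log]
  exact_mod_cast (logp_pos p).ne'

/-- the polynomials do not vanish nearby -/
lemma ev_ne {D : Polynomial ℂ} (hD : D ≠ 0) (s : ℂ) :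
    ∀ᶠ z in 𝓝[≠] s, D.eval ((p : ℂ) ^ (-z)) ≠ 0 := by
  classical
  have h1 : ∀ᶠ z in 𝓝[≠] s, ∀ ρ ∈ D.roots.toFinset, (p : ℂ) ^ (-z) ≠ ρ := by
    rw [Filter.eventually_all_finset]
    intro ρ _
    exact (hasDerivAt_T p s).eventually_ne (deriv_T_ne p s)
  filter_upwards [h1] with z hz h0
  exact hz _ (by rw [Multiset.mem_toFinset, Polynomial.mem_roots hD]; exact h0) rfl

/-- **Poles of the Poincare series.** -/
theorem pole_of_poincare {V : Type} [Fintype V] (F : MvPolynomial V ℤ)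
    (hnull : Tendsto (fun M => ((dens p F M : ℚ) : ℝ)) atTop (𝓝 0)) {T₀ : ℂ} {r : ℕ} (hr : 0 < r)
    (h : IsPoleOfOrder (poincare p F) T₀ r) :
    ∃ (Z : ℂ → ℂ) (s₀ : ℂ), MeromorphicOn Z Set.univ ∧
      (∀ s : ℂ, 0 < s.re → Z s = igusaZeta p F s) ∧ meromorphicOrderAt Z s₀ < 0 ∧
      s₀.re = -Real.log ‖T₀‖ / Real.log p := by
  classical
  have hT1 := pole_ne_one p F hnull hr h
  have hT0 := pole_ne_zero hr h
  obtain ⟨A, B, hA, hB, hP⟩ := h
  set D : Polynomial ℂ := (Polynomial.X - Polynomial.C T₀) ^ r * B with hDdef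
  have hB0 : B ≠ 0 := by
    rintro rfl
    rw [Polynomial.eval_zero] at hB
    exact hB rfl
  have hD0 : D ≠ 0 := mul_ne_zero (pow_ne_zero _ (Polynomial.X_sub_C_ne_zero _)) hB0
  have hDT : D.eval T₀ = 0 := by
    rw [hDdef, Polynomial.eval_mul, Polynomial.eval_pow, Polynomial.eval_sub, Polynomial.eval_X,
      Polynomial.eval_C, sub_self, zero_pow hr.ne', zero_mul]
  set φ : ℂ → ℂ := fun s => (p : ℂ) ^ (-s) with hφ
  have hφa : ∀ s, AnalyticAt ℂ φ s := fun s => analyticAt_T p s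
  have hpol : ∀ (E : Polynomial ℂ) s, AnalyticAt ℂ (fun s => E.eval (φ s)) s := by
    intro E s
    have h1 := (AnalyticOnNhd.eval_polynomial E (φ s) (Set.mem_univ _)).comp (hφa s)
    exact h1
  set Nu : ℂ → ℂ := fun s => D.eval (φ s) - (1 - φ s) * A.eval (φ s) with hNu
  set De : ℂ → ℂ := fun s => φ s * D.eval (φ s) with hDe
  have hNa : ∀ s, AnalyticAt ℂ Nu s := fun s =>
    (hpol D s).sub ((analyticAt_const.sub (hφa s)).mul (hpol A s))
  have hDa : ∀ s, AnalyticAt ℂ De s := fun s => (hφa s).mul (hpol D s)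
  set G : ℂ → ℂ := fun s => Nu s * (De s)⁻¹ with hG
  have hGm : ∀ s, MeromorphicAt G s := fun s => (hNa s).meromorphicAt.mul (hDa s).meromorphicAt.inv
  set Z : ℂ → ℂ := fun s => if 0 < s.re then igusaZeta p F s else G s with hZ
  have hev : ∀ s₁, G =ᶠ[𝓝[≠] s₁] Z := by
    intro s₁
    filter_upwards [ev_ne p hD0 s₁] with s hs
    simp only [hZ]
    split_ifs with h1
    · have hT := norm_T_lt p h1
      have e1 := gen_igusa p F h1 hT
      have e2 := gen_eval p F hP hT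
      have hne : De s ≠ 0 := mul_ne_zero (T_ne_zero p s) hs
      show Nu s * (De s)⁻¹ = _
      rw [mul_inv_eq_iff_eq_mul₀ hne]
      simp only [hNu, hDe, hφ]
      linear_combination (1 - (p : ℂ) ^ (-s)) * e2 - D.eval ((p : ℂ) ^ (-s)) * e1
    · rfl
  set s₀ : ℂ := -(Complex.log T₀ / (Real.log p : ℝ)) with hs₀
  have hlp := logp_pos p
  have hφs : φ s₀ = T₀ := by
    have hlpC : ((Real.log p : ℝ) : ℂ) ≠ 0 := by exact_mod_cast hlp.ne'
    simp only [hφ, hs₀]
    rw [neg_neg, Complex.cpow_def_of_ne_zero (by exact_mod_cast hp.out.ne_zero),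
      ← Complex.natCast_log, mul_div_cancel₀ _ hlpC, Complex.exp_log hT0]
  refine ⟨Z, s₀, fun s _ => (hGm s).congr (hev s), fun s hs => if_pos hs, ?_, ?_⟩
  · rw [← meromorphicOrderAt_congr (hev s₀), ← tendsto_cobounded_iff_meromorphicOrderAt_neg
      (hGm s₀), ← tendsto_norm_atTop_iff_cobounded]
    have h1 : Tendsto (fun s => ‖Nu s‖) (𝓝[≠] s₀) (𝓝 ‖Nu s₀‖) :=
      ((hNa s₀).continuousAt.norm.tendsto).mono_left nhdsWithin_le_nhds
    have hN0 : Nu s₀ ≠ 0 := by
      simp only [hNu, hφs, hDT, zero_sub]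
      exact neg_ne_zero.2 (mul_ne_zero (sub_ne_zero.2 (Ne.symm hT1)) hA)
    have h2 : Tendsto De (𝓝[≠] s₀) (𝓝[≠] 0) := by
      rw [tendsto_nhdsWithin_iff]
      constructor
      · have h3 := ((hDa s₀).continuousAt.tendsto).mono_left
          (nhdsWithin_le_nhds : 𝓝[≠] s₀ ≤ 𝓝 s₀)
        have h4 : De s₀ = 0 := by
          simp only [hDe, hφs, hDT, mul_zero]
        rwa [h4] at h3
      · filter_upwards [ev_ne p hD0 s₀] with s hs
        exact mul_ne_zero (T_ne_zero p s) hs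
    have h5 : Tendsto (fun s => ‖(De s)⁻¹‖) (𝓝[≠] s₀) atTop :=
      tendsto_norm_atTop_iff_cobounded.2 (Filter.tendsto_inv₀_nhdsNE_zero.comp h2)
    have h6 := Filter.Tendsto.pos_mul_atTop (norm_pos_iff.2 hN0) h1 h5
    refine h6.congr fun s => ?_
    rw [← norm_mul]
  · rw [hs₀, Complex.neg_re, Complex.div_ofReal_re, Complex.log_re, neg_div]

end Pool.Agent.W425.PZ
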